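import Pool.Agent.W_MP_37527c_al.Literal
import Pool.Agent.W_MP_37527c_al.Main
import Pool.Agent.W_MP_37527c_al.Pairs

/-!
# All irreducible representations of the finite quotients `G_n` of the Grigorchuk group

The list `family n` is defined by recursion on `n`. Its members are pairs `(M, lam)` of a subgroup
`M` of the image of `G_n` in the automorphism group of the tree of depth `n` and a linear character
`lam` of `M`. The theorem says that the representations of `G_n` induced from these characters are
irreducible and pairwise inequivalent, and that they are all the irreducible complex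
representations of `G_n`.
-/

set_option autoImplicit false

universe u

open Representation

namespace Pool.Agent.Results.MP_37527c_al.AllIrreps

open Pool.Agent.W_MP_37527c_al

/-- Let `G_n` be the quotient of the Grigorchuk group by the stabilizer of level `n`. The members
of the list `family n` are pairs `(M, lam)` of a subgroup `M` of the automorphism group of the tree
of depth `n` and a function `lam`; they define pairs `(M, χ)` of a subgroup of `G_n` and a linear
character of it. The representations of `G_n` induced from these characters are irreducible and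
pairwise inequivalent, and every irreducible complex representation of `G_n` is equivalent to one
of them. -/
theorem result (n : ℕ) :
    ∃ L : List (Pair (Gq n)), List.Forall₂ Pair.Of (family n) L ∧
      (∀ x ∈ L, x.Irreducible) ∧ L.Pairwise (fun x y => ¬ x.Equivalent y) ∧
      ∀ (V : Type u) [AddCommGroup V] [Module ℂ V] (ρ : Representation ℂ (Gq n) V),
        ρ.IsIrreducible → ∃ x ∈ L, x.Affords ρ := by
  classical
  haveI : Finite (Gq n) := Finite.of_injective (portrait n) (portrait_injective n)
  letI : Fintype (Gq n) := Fintype.ofFinite (Gq n)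
  have hφ := portrait_injective n
  have hr := portrait_range n
  have h0 := family_system.{0} n
  -- the pairs
  have hex : ∀ D ∈ family n, ∃ x : Pair (Gq n), Pair.Of D x := by
    intro D hD
    obtain ⟨H, hH, hHG⟩ := mono_of_good (h0.good _ hD)
    have hM : ∀ m, m ∈ D.M ↔ m ∈ H := fun m => by rw [← hH.1]; rfl
    refine ⟨⟨H.comap (portrait n),
      { toFun := fun g => D.lam (portrait n g)
        map_one' := by
          show D.lam (portrait n 1) = 1
          rw [map_one]; exact hH.2.1
        map_mul' := by
          rintro ⟨x, hx⟩ ⟨y, hy⟩
          show D.lam (portrait n (x * y)) = _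
          rw [map_mul]
          exact hH.2.2 _ hx _ hy }⟩, fun g => ⟨(hM _).symm, fun h => rfl⟩⟩
  let f : Dat (Aut n) Unit → Pair (Gq n) := fun D =>
    if h : ∃ x : Pair (Gq n), Pair.Of D x then h.choose else ⟨⊥, 1⟩
  have hf : ∀ D ∈ family n, Pair.Of D (f D) := by
    intro D hD
    have h := hex D hD
    have : f D = h.choose := dif_pos h
    rw [this]
    exact h.choose_spec
  have he : ∀ D ∈ family n, Nonempty (Representation.Equiv (f D).rep (ind (portrait n) D)) := by
    intro D hD
    have h1 : ∀ g, g ∈ (f D).M ↔ portrait n g ∈ D.M := by
      intro g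
      obtain ⟨g, rfl⟩ := mk_surjective g
      exact (hf D hD g).1
    have h2 : ∀ g (h : g ∈ (f D).M), (f D).χ ⟨g, h⟩ = D.lam (portrait n g) := by
      intro g
      obtain ⟨g, rfl⟩ := mk_surjective g
      exact (hf D hD g).2
    exact ⟨(f D).toCoind.trans (coindToFun (f D) (portrait n) D h1 h2)⟩
  refine ⟨(family n).map f, ?_, ?_, ?_, ?_⟩
  · rw [List.forall₂_map_right_iff, List.forall₂_same]
    exact hf
  · intro x hx
    obtain ⟨D, hD, rfl⟩ := List.mem_map.1 hx
    obtain ⟨e⟩ := he D hD
    obtain ⟨i, rfl⟩ := List.get_of_mem hD
    exact irreducible_of_equiv e.symm (ind_irreducible hφ hr h0 i)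
  · rw [List.pairwise_map, List.pairwise_iff_get]
    intro i j hij h
    obtain ⟨e⟩ := h
    obtain ⟨e1⟩ := he _ ((family n).get_mem i)
    obtain ⟨e2⟩ := he _ ((family n).get_mem j)
    exact (ind_not_equiv hφ hr h0 hij.ne).false ((e1.symm.trans e).trans e2)
  · intro V _ _ ρ hρ
    obtain ⟨i, ⟨e⟩⟩ := ind_complete hφ hr h0 (family_system.{u} n) ρ hρ
    obtain ⟨e1⟩ := he _ ((family n).get_mem i)
    exact ⟨_, List.mem_map.2 ⟨_, (family n).get_mem i, rfl⟩, ⟨e1.trans e⟩⟩

end Pool.Agent.Results.MP_37527c_al.AllIrreps
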